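import Pool.Agent.Lib.MP_0e3b4a_gt.Iface2

/-! # LINX: a path in a line has its velocity in this line -/

set_option autoImplicit false

namespace Pool.Agent.CutLoci

open MeasureTheory Set Filter Topology

theorem linx : LinxStatement := by
  intro u τ hu hτ hx
  have hui : IntervalIntegrable u volume 0 1 :=
    (intervalIntegrable_iff_integrableOn_Ioc_of_le zero_le_one).2 hu
  have hae := hui.ae_hasDerivAt_integral
  have h1 : ∀ᵐ t ∂(volume.restrict (Ioc (0 : ℝ) 1)), τ (u t) = 0 := by
    rw [ae_restrict_iff' measurableSet_Ioc]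
    have hne : ∀ᵐ t : ℝ, t ≠ 1 := by simp [ae_iff, measure_singleton]
    filter_upwards [hae, hne] with t ht htne htI
    have htu : t ∈ uIcc (0 : ℝ) 1 := by
      rw [uIcc_of_le zero_le_one]; exact ⟨htI.1.le, htI.2⟩
    have h2 := ht htu 0 (by rw [uIcc_of_le zero_le_one]; exact ⟨le_rfl, zero_le_one⟩)
    have h3 : HasDerivAt (fun x => τ (∫ s in (0 : ℝ)..x, u s)) (τ (u t)) t := by
      have h4 := (LinearMap.toContinuousLinearMap τ).hasFDerivAt.comp_hasDerivAt t h2
      exact h4
    have h5 : HasDerivAt (fun x => τ (∫ s in (0 : ℝ)..x, u s)) 0 t := by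
      have h6 : (fun x => τ (∫ s in (0 : ℝ)..x, u s)) =ᶠ[𝓝 t] fun _ => (0 : ℝ) := by
        have h7 : Ioo (0 : ℝ) 1 ∈ 𝓝 t :=
          Ioo_mem_nhds htI.1 (lt_of_le_of_ne htI.2 htne)
        filter_upwards [h7] with x hx'
        exact hx x ⟨hx'.1.le, hx'.2.le⟩
      exact (hasDerivAt_const t (0 : ℝ)).congr_of_eventuallyEq h6
    exact h3.unique h5
  set A : ℝ := τ (EuclideanSpace.single 0 1) with hA
  set B : ℝ := τ (EuclideanSpace.single 1 1) with hB
  have hexp : ∀ v : EE 2, τ v = v 0 * A + v 1 * B := by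
    intro v
    have h8 : v = v 0 • EuclideanSpace.single 0 (1 : ℝ) + v 1 • EuclideanSpace.single 1 (1 : ℝ) := by
      ext i
      fin_cases i <;> simp
    conv_lhs => rw [h8]
    rw [map_add, map_smul, map_smul, smul_eq_mul, smul_eq_mul]
  refine ⟨B • EuclideanSpace.single 0 (1 : ℝ) - A • EuclideanSpace.single 1 (1 : ℝ), ?_⟩
  filter_upwards [h1] with t ht
  rw [hexp] at ht
  by_cases hB0 : B = 0
  · have hA0 : A ≠ 0 := by
      intro hA0
      apply hτ
      ext v
      rw [hexp, hA0, hB0]; simp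
    rw [hB0, mul_zero, add_zero] at ht
    have h9 : u t 0 = 0 := (mul_eq_zero.1 ht).resolve_right hA0
    refine ⟨-(u t 1) / A, ?_⟩
    ext i
    fin_cases i
    · simp [h9, hB0]
    · simp
      field_simp
  · refine ⟨u t 0 / B, ?_⟩
    ext i
    fin_cases i
    · simp
      field_simp
    · simp
      field_simp
      linear_combination ht

end Pool.Agent.CutLoci
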